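import Pool.Agent.H.MP_92974c_pr.B

namespace Pool.Agent.Results.MP_92974c_pr.Square

open MeasureTheory Set Real EuclideanGeometry Pool.Agent.H.MP_92974c_pr
open scoped ENNReal

noncomputable def F (S : Set ℂ) (φ : ℝ) : ℝ≥0∞ :=
  volume {t : ℂ × ℂ × ℂ | t.1 ∈ S ∧ t.2.1 ∈ S ∧ t.2.2 ∈ S ∧
    ∠ t.2.1 t.1 t.2.2 ≤ φ ∧ ∠ t.1 t.2.1 t.2.2 ≤ φ ∧ ∠ t.1 t.2.2 t.2.1 ≤ φ} / volume S ^ 3

def O (φ : ℝ) : Set ℂ := {w | ∠ 1 0 w ≤ φ ∧ ∠ 0 1 w ≤ φ ∧ ∠ 0 w 1 ≤ φ}

lemma ang_meas {α : Type} [MeasurableSpace α] {a b c : α → ℂ} (ha : Measurable a)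
    (hb : Measurable b) (hc : Measurable c) (φ : ℝ) : MeasurableSet {t | ∠ (a t) (b t) (c t) ≤ φ} := by
  simp only [EuclideanGeometry.angle, InnerProductGeometry.angle, vsub_eq_sub]
  exact measurableSet_le (continuous_arccos.measurable.comp (by fun_prop)) measurable_const

lemma O_meas (φ : ℝ) : MeasurableSet (O φ) :=
  (ang_meas measurable_const measurable_const measurable_id φ).inter
    ((ang_meas measurable_const measurable_const measurable_id φ).inter
      (ang_meas measurable_const measurable_id measurable_const φ))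

lemma ang {v : ℂ} (hv : v ≠ 0) (x a b c : ℂ) : ∠ (x + v * a) (x + v * b) (x + v * c) = ∠ a b c := by
  simp only [EuclideanGeometry.angle, vsub_eq_sub, add_sub_add_left_eq_sub, ← mul_sub,
    Complex.angle_mul_left hv]

lemma vol {S : Set ℂ} (hS : MeasurableSet S) (φ : ℝ) :
    F S φ = (∫⁻ w in O φ, G S w) / volume S ^ 3 := by
  unfold F
  congr 1
  set E : Set (ℂ × ℂ × ℂ) := {t | _}
  have hE : MeasurableSet E := (measurable_fst hS).inter ((measurable_snd.fst hS).inter
    ((measurable_snd.snd hS).inter ((ang_meas (by fun_prop) (by fun_prop) (by fun_prop) φ).inter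
      ((ang_meas (by fun_prop) (by fun_prop) (by fun_prop) φ).inter
        (ang_meas (by fun_prop) (by fun_prop) (by fun_prop) φ)))))
  let K : Set ((ℂ × ℂ) × ℂ) :=
    {p | p.2 ∈ O φ ∧ p.1.1 ∈ S ∧ p.1.1 + p.1.2 ∈ S ∧ p.1.1 + p.2 * p.1.2 ∈ S}
  have hK : MeasurableSet K := (measurable_snd (O_meas φ)).inter ((measurable_fst.fst hS).inter
    (((by fun_prop : Measurable fun p : (ℂ × ℂ) × ℂ => p.1.1 + p.1.2) hS).inter
      ((by fun_prop : Measurable fun p : (ℂ × ℂ) × ℂ => p.1.1 + p.2 * p.1.2) hS)))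
  let f : (ℂ × ℂ) × ℂ → ℝ≥0∞ := K.indicator fun p => ENNReal.ofReal (‖p.1.2‖ ^ 2)
  have hf : Measurable f := Measurable.indicator (by fun_prop) hK
  have h1 : Measurable (E.indicator (1 : ℂ × ℂ × ℂ → ℝ≥0∞)) := measurable_one.indicator hE
  calc volume E = ∫⁻ x, ∫⁻ v, ∫⁻ w, f ((x, v), w) := by
        rw [← lintegral_indicator_one hE, Measure.volume_eq_prod, lintegral_prod _ h1.aemeasurable]
        refine lintegral_congr fun x => ?_
        rw [Measure.volume_eq_prod, lintegral_prod (fun q => E.indicator 1 (x, q))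
          (h1.comp measurable_prodMk_left).aemeasurable, ← lintegral_add_left_eq_self _ x]
        refine lintegral_congr_ae ((Measure.ae_ne volume 0).mono fun v hv => ?_)
        simp only
        rw [← lintegral_add_left_eq_self _ x, scale hv (f := fun z => E.indicator 1 (x, x + v, x + z))
          (h1.comp (by fun_prop)), ← lintegral_const_mul' _ _ ENNReal.ofReal_ne_top]
        refine lintegral_congr fun w => ?_
        have : (x, x + v, x + v * w) ∈ E ↔ ((x, v), w) ∈ K := by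
          have a1 := ang hv x 1 0 w
          have a2 := ang hv x 0 1 w
          have a3 := ang hv x 0 w 1
          simp only [mul_one, mul_zero, add_zero] at a1 a2 a3
          simp only [E, K, O, mem_ofPred_eq, a1, a2, a3, mul_comm w]
          tauto
        by_cases h : ((x, v), w) ∈ K
        · simp [f, h, this.mpr h]
        · simp [f, h, mt this.mp h]
    _ = ∫⁻ w, ∫⁻ p, f (p, w) := by
        rw [← lintegral_lintegral_swap (f := fun p w => f (p, w)) hf.aemeasurable,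
          Measure.volume_eq_prod, lintegral_prod _ hf.lintegral_prod_right'.aemeasurable]
    _ = _ := by
        rw [← lintegral_indicator (O_meas φ)]
        refine lintegral_congr fun w => ?_
        rw [Measure.volume_eq_prod, lintegral_prod_symm' (fun p => f (p, w))
          (hf.comp measurable_prodMk_right)]
        by_cases h : w ∈ O φ
        · rw [indicator_of_mem h]
          refine lintegral_congr fun v => ?_
          rw [← setLIntegral_const, ← lintegral_indicator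
            (s := {x | x ∈ S ∧ x + v ∈ S ∧ x + w * v ∈ S}) (hS.inter (((by fun_prop : Measurable fun x : ℂ => x + v) hS).inter
              ((by fun_prop : Measurable fun x : ℂ => x + w * v) hS)))]
          refine lintegral_congr fun x => ?_
          by_cases h2 : x ∈ S ∧ x + v ∈ S ∧ x + w * v ∈ S
          · simp [f, K, h, h2]
          · simp [f, K, indicator, h2]
        · simp [f, K, h]

lemma inn {u v : ℂ} {k : ℝ} (h0 : 0 < k) (h1 : k ≤ 1)
    (h : InnerProductGeometry.angle u v ≤ arccos k) :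
    0 < ‖u‖ * ‖v‖ ∧ k * (‖u‖ * ‖v‖) ≤ u.re * v.re + u.im * v.im := by
  have h2 := cos_le_cos_of_nonneg_of_le_pi (InnerProductGeometry.angle_nonneg _ _)
    (arccos_le_pi _) h
  rw [cos_arccos (by linarith) h1, InnerProductGeometry.cos_angle] at h2
  have h3 : 0 < ‖u‖ * ‖v‖ := lt_of_le_of_ne (by positivity) fun e => by
    rw [← e, div_zero] at h2; linarith
  rw [le_div_iff₀ h3, Complex.inner] at h2
  exact ⟨h3, h2.trans_eq (by simp [mul_comm])⟩

lemma real {p q s t : ℝ} (a1 : 0 < p) (a2 : 0 < q) (hp : p ^ 2 = s ^ 2 + t ^ 2)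
    (hq : q ^ 2 = (s - 1) ^ 2 + t ^ 2) (h1 : (1 / 2 - 1 / 10 ^ 11) * p ≤ s)
    (h2 : (1 / 2 - 1 / 10 ^ 11) * q ≤ 1 - s)
    (h3 : (1 / 2 - 1 / 10 ^ 11) * (p * q) ≤ s ^ 2 + t ^ 2 - s) :
    (p ^ 2 - q ^ 2) ^ 2 + (p ^ 2 - 1) ^ 2 + (q ^ 2 - 1) ^ 2 < 2 / 20000 ^ 4 := by
  have b1 : (1 / 2 - 1 / 10 ^ 11) * (1 + q) ≤ p := le_of_mul_le_mul_left (by linarith) a1
  have b2 : (1 / 2 - 1 / 10 ^ 11) * (1 + p) ≤ q := le_of_mul_le_mul_left (by linarith) a2
  have c : ∀ x : ℝ, 1 - 4 / 10 ^ 11 ≤ x → x ≤ 1 + 9 / 10 ^ 11 → |x ^ 2 - 1| ≤ 19 / 10 ^ 11 :=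
    fun x h1 h2 => abs_le.mpr ⟨by nlinarith, by nlinarith⟩
  have c1 := c p (by linarith) (by linarith)
  have c2 := c q (by linarith) (by linarith)
  have c3 : |p ^ 2 - q ^ 2| ≤ 38 / 10 ^ 11 := by
    rw [abs_le] at *
    constructor <;> linarith [c1.1, c1.2, c2.1, c2.2]
  have d1 := pow_le_pow_left₀ (abs_nonneg _) c1 2
  have d2 := pow_le_pow_left₀ (abs_nonneg _) c2 2
  have d3 := pow_le_pow_left₀ (abs_nonneg _) c3 2
  rw [sq_abs] at d1 d2 d3
  linarith

lemma near {w : ℂ} (h : w ∈ O (arccos (1 / 2 - 1 / 10 ^ 11))) :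
    ‖w - ω‖ < 1 / 20000 ∨ ‖1 - w - ω‖ < 1 / 20000 := by
  obtain ⟨a1, h1⟩ := inn (by norm_num) (by norm_num) h.1
  obtain ⟨a2, h2⟩ := inn (by norm_num) (by norm_num) h.2.1
  obtain ⟨-, h3⟩ := inn (by norm_num) (by norm_num) h.2.2
  simp only [vsub_eq_sub, sub_zero, zero_sub, norm_one, norm_neg, one_mul, norm_sub_rev 1 w,
    Complex.one_re, Complex.one_im, Complex.neg_re, Complex.neg_im, Complex.sub_re,
    Complex.sub_im] at a1 a2 h1 h2 h3
  have hp : ‖w‖ ^ 2 = w.re ^ 2 + w.im ^ 2 := by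
    rw [← Complex.normSq_eq_norm_sq, Complex.normSq_apply]; ring
  have hq : ‖w - 1‖ ^ 2 = (w.re - 1) ^ 2 + w.im ^ 2 := by
    rw [← Complex.normSq_eq_norm_sq, Complex.normSq_apply]; simp; ring
  have e : ‖w - ω‖ ^ 2 * ‖1 - w - ω‖ ^ 2 = ((‖w‖ ^ 2 - ‖w - 1‖ ^ 2) ^ 2 + (‖w‖ ^ 2 - 1) ^ 2 +
      (‖w - 1‖ ^ 2 - 1) ^ 2) / 2 := by
    rw [hp, hq, ← Complex.normSq_eq_norm_sq, ← Complex.normSq_eq_norm_sq, Complex.normSq_apply,
      Complex.normSq_apply]
    simp [ω]
    linear_combination (√3 * √3 / 16 + 3 / 16 + (w.re - 1 / 2) ^ 2 / 2 - w.im ^ 2 / 2) * s3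
  have := real a1 a2 hp hq (by linarith) (by linarith) (by linarith)
  by_contra hc
  rw [not_or, not_lt, not_lt] at hc
  have := mul_le_mul (pow_le_pow_left₀ (by norm_num) hc.1 2) (pow_le_pow_left₀ (by norm_num) hc.2 2)
    (by norm_num) (by positivity)
  linarith

lemma O_nhds {k : ℝ} (hk : k < 1 / 2) : O (arccos k) ∈ nhds ω := by
  have o1 : ‖ω - 1‖ = 1 := by rw [← ω_sq, norm_mul, ω_norm, one_mul]
  have key : ∀ a b : ℂ → ℂ, Continuous a → Continuous b → ‖a ω‖ = 1 → ‖b ω‖ = 1 →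
      inner ℝ (a ω) (b ω) = 1 / 2 →
      ∀ᶠ w in nhds ω, InnerProductGeometry.angle (a w) (b w) ≤ arccos k := fun a b ha hb h1 h2 h3 =>
    (ContinuousAt.eventually_lt (f := fun _ => k)
      (g := fun w => inner ℝ (a w) (b w) / (‖a w‖ * ‖b w‖)) continuousAt_const
      (ContinuousAt.div (by fun_prop) (by fun_prop) (by simp [h1, h2]))
      (by simpa [h1, h2, h3] using hk)).mono fun w hw => arccos_le_arccos hw.le
  refine (key (fun _ => 1 - 0) (fun w => w - 0) (by fun_prop) (by fun_prop) (by simp)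
    (by simp [ω_norm]) (by simp [ω])).and ((key (fun _ => 0 - 1) (fun w => w - 1) (by fun_prop)
    (by fun_prop) (by simp) o1 (by norm_num [ω])).and (key (fun w => 0 - w) (fun w => 1 - w)
    (by fun_prop) (by fun_prop) (by simp [ω_norm]) (by rw [norm_sub_rev, o1]) ?_))
  simp [ω]
  nlinarith [s3]

lemma G_Q {w : ℂ} (h : ‖w - ω‖ < 1 / 20000) : G (Q 0.9998) ω ≤ G (Q 1) w := by
  refine lintegral_mono fun v => mul_le_mul_right (measure_mono fun x hx => ?_) _
  simp only [Q, mem_ofPred_eq, show x + w * v = x + ω * v + (w - ω) * v by ring] at hx ⊢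
  have h1 := Complex.norm_le_abs_re_add_abs_im v
  have h2 := Complex.abs_re_le_norm ((w - ω) * v)
  have h3 := Complex.abs_im_le_norm ((w - ω) * v)
  simp only [Complex.add_re, Complex.add_im] at hx ⊢
  have h4 : ‖v‖ ≤ 4 := by grind
  have h5 := mul_le_mul h.le h4 (norm_nonneg _) (by norm_num)
  rw [← norm_mul] at h5
  grind

lemma G_B {w : ℂ} (h : ‖w - ω‖ < 1 / 20000) :
    G (Metric.closedBall 0 1) w ≤ G (Metric.closedBall 0 1.0002) ω := by
  refine lintegral_mono fun v => mul_le_mul_right (measure_mono fun x hx => ?_) _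
  simp only [mem_ofPred_eq, mem_closedBall_zero_iff] at hx ⊢
  have h1 := norm_sub_le (x + v) x
  have h2 := norm_sub_le (x + w * v) ((w - ω) * v)
  rw [add_sub_cancel_left] at h1
  rw [show x + w * v - (w - ω) * v = x + ω * v by ring, norm_mul] at h2
  have h5 := mul_le_mul h.le (show ‖v‖ ≤ 2 by linarith [hx.1, hx.2.1]) (norm_nonneg _) (by norm_num)
  exact ⟨by linarith [hx.1], by linarith [hx.2.1], by linarith [hx.2.2]⟩

theorem result : ∃ (S : Set ℂ) (φ : ℝ), Convex ℝ S ∧ Bornology.IsBounded S ∧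
    (interior S).Nonempty ∧ F (Metric.closedBall 0 1) φ < F S φ := by
  have hQ : Q 1 = {z : ℂ | z.re ∈ Icc (-1) 1 ∧ z.im ∈ Icc (-1) 1} := by
    simp only [Q, abs_le, mem_Icc]
  refine ⟨Q 1, arccos (1 / 2 - 1 / 10 ^ 11), ?_, ?_, ⟨0, ?_⟩, ?_⟩
  · rw [hQ]
    exact ((convex_Icc _ _).linear_preimage Complex.reLm).inter
      ((convex_Icc _ _).linear_preimage Complex.imLm)
  · refine (Metric.isBounded_closedBall (x := 0) (r := 2)).subset fun z hz => ?_
    rw [mem_closedBall_zero_iff]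
    linarith [Complex.norm_le_abs_re_add_abs_im z, hz.1, hz.2]
  · refine mem_interior_iff_mem_nhds.mpr (Filter.mem_of_superset
      (Metric.closedBall_mem_nhds 0 one_pos) fun z hz => ?_)
    rw [mem_closedBall_zero_iff] at hz
    exact ⟨(Complex.abs_re_le_norm z).trans hz, (Complex.abs_im_le_norm z).trans hz⟩
  have h0 := (Measure.measure_pos_of_mem_nhds volume
    (O_nhds (k := 1 / 2 - 1 / 10 ^ 11) (by norm_num))).ne'
  have h1 : volume (O (arccos (1 / 2 - 1 / 10 ^ 11))) ≠ ∞ := by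
    refine ne_top_of_le_ne_top (measure_closedBall_lt_top (x := 0) (r := 3)).ne
      (measure_mono fun w hw => ?_)
    rw [mem_closedBall_zero_iff]
    have := ω_norm
    rcases near hw with h | h
    · linarith [norm_sub_norm_le w ω]
    · have := norm_sub_le (1 - ω) (1 - w - ω)
      have := norm_sub_le 1 ω
      simp only [norm_one, show 1 - ω - (1 - w - ω) = w by ring] at *
      linarith
  have hS : MeasurableSet (Q 1) := by unfold Q; measurability
  rw [vol hS, vol measurableSet_closedBall]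
  have h2 := setLIntegral_mono' (μ := volume) (O_meas (arccos (1 / 2 - 1 / 10 ^ 11))) fun w hw =>
    ((near hw).elim G_B fun h => (G_symm _ w).ge.trans (G_B h)).trans (disk (by norm_num))
  have h3 := setLIntegral_mono' (μ := volume) (O_meas (arccos (1 / 2 - 1 / 10 ^ 11))) fun w hw =>
    (square (by norm_num)).trans ((near hw).elim G_Q fun h => (G_Q h).trans (G_symm _ w).le)
  rw [setLIntegral_const] at h2 h3
  refine (ENNReal.div_le_div_right h2 _).trans_lt (lt_of_lt_of_le ?_ (ENNReal.div_le_div_right h3 _))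
  rw [ENNReal.mul_div_right_comm, ENNReal.mul_div_right_comm]
  refine ENNReal.mul_lt_mul_left h0 h1 ?_
  have p := pi_gt_d4
  have p' := pi_lt_d4
  rw [hQ, rect, Complex.volume_closedBall, ← ENNReal.ofReal_coe_nnreal, NNReal.coe_real_pi,
    ← ENNReal.ofReal_mul (by norm_num), ENNReal.ofReal_one, one_pow, one_mul,
    ← ENNReal.ofReal_pow pi_pos.le, ← ENNReal.ofReal_pow (by norm_num),
    ← ENNReal.ofReal_div_of_pos (by positivity), ← ENNReal.ofReal_div_of_pos (by norm_num),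
    ENNReal.ofReal_lt_ofReal_iff (by positivity), div_lt_iff₀ (by positivity)]
  have s : 1.73205 < √3 := by nlinarith [s3, Real.sqrt_nonneg 3]
  have q : 9.869 < π ^ 2 := by nlinarith
  calc _ < π * (0.1215 * 0.9988 * π ^ 2) := by
        rw [mul_assoc]
        exact mul_lt_mul_of_pos_left (by linarith) pi_pos
    _ = 0.1215 * 0.9988 * π ^ 3 := by ring
    _ ≤ _ := by
        gcongr
        linarith

end Pool.Agent.Results.MP_92974c_pr.Square
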